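import Pool.Agent.NNr.U11_1_1_m1.D1
import Pool.Agent.NNr.U11_1_1_m1.D2
import Pool.Agent.NNr.U11_1_1_m1.D3

set_option linter.all false
set_option maxRecDepth 1000000
namespace Pool.Agent.NNr.U11_1_1_m1

open Pool.Agent.NNe

def sc2_2 : stCov (nat_lit 2) (nat_lit 82) (Rl.cons (nat_lit 82) (nat_lit 16) Rl.nil) C2_2 = true := by decide +kernel
def wf2_3 : wfC (nat_lit 33) (nat_lit 31) C2_3 = true := by decide +kernel
def rf2_3 : rfCk (nat_lit 61) (nat_lit 23) (nat_lit 33) (nat_lit 31) (nat_lit 9) (nat_lit 0) (nat_lit 3) TL2 CL1 CL2 = true := by decide +kernel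
def st2_3_0 : starCk (nat_lit 33) (nat_lit 31) (nat_lit 1) (nat_lit 15) (nat_lit 7) (nat_lit 81) (nat_lit 256) C2_3 = true := by decide +kernel
def sc2_3 : stCov (nat_lit 2) (nat_lit 81) (Rl.cons (nat_lit 81) (nat_lit 7) Rl.nil) C2_3 = true := by decide +kernel
def wf2_4 : wfC (nat_lit 33) (nat_lit 31) C2_4 = true := by decide +kernel
def rf2_4 : rfCk (nat_lit 61) (nat_lit 23) (nat_lit 33) (nat_lit 31) (nat_lit 9) (nat_lit 0) (nat_lit 4) TL2 CL1 CL2 = true := by decide +kernel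
def st2_4_0 : starCk (nat_lit 33) (nat_lit 31) (nat_lit 1) (nat_lit 15) (nat_lit 10) (nat_lit 21) (nat_lit 16) C2_4 = true := by decide +kernel
def sc2_4 : stCov (nat_lit 1) (nat_lit 21) (Rl.cons (nat_lit 21) (nat_lit 10) Rl.nil) C2_4 = true := by decide +kernel
def wf2_5 : wfC (nat_lit 33) (nat_lit 31) C2_5 = true := by decide +kernel
def rf2_5 : rfCk (nat_lit 61) (nat_lit 23) (nat_lit 33) (nat_lit 31) (nat_lit 9) (nat_lit 0) (nat_lit 5) TL2 CL1 CL2 = true := by decide +kernel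
def st2_5_0 : starCk (nat_lit 33) (nat_lit 31) (nat_lit 1) (nat_lit 15) (nat_lit 55) (nat_lit 73) (nat_lit 4096) C2_5 = true := by decide +kernel
def sc2_5 : stCov (nat_lit 3) (nat_lit 73) (Rl.cons (nat_lit 73) (nat_lit 55) Rl.nil) C2_5 = true := by decide +kernel
def wf2_6 : wfC (nat_lit 33) (nat_lit 31) C2_6 = true := by decide +kernel
def rf2_6 : rfCk (nat_lit 61) (nat_lit 23) (nat_lit 33) (nat_lit 31) (nat_lit 9) (nat_lit 0) (nat_lit 6) TL2 CL1 CL2 = true := by decide +kernel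
def st2_6_0 : starCk (nat_lit 33) (nat_lit 31) (nat_lit 1) (nat_lit 15) (nat_lit 30) (nat_lit 68) (nat_lit 16) C2_6 = true := by decide +kernel
def sc2_6 : stCov (nat_lit 1) (nat_lit 68) (Rl.cons (nat_lit 68) (nat_lit 30) Rl.nil) C2_6 = true := by decide +kernel
def wf2_7 : wfC (nat_lit 33) (nat_lit 31) C2_7 = true := by decide +kernel
def rf2_7 : rfCk (nat_lit 61) (nat_lit 23) (nat_lit 33) (nat_lit 31) (nat_lit 9) (nat_lit 0) (nat_lit 7) TL2 CL1 CL2 = true := by decide +kernel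
def st2_7_0 : starCk (nat_lit 33) (nat_lit 31) (nat_lit 1) (nat_lit 15) (nat_lit 27) (nat_lit 59) (nat_lit 16) C2_7 = true := by decide +kernel
def sc2_7 : stCov (nat_lit 1) (nat_lit 59) (Rl.cons (nat_lit 59) (nat_lit 27) Rl.nil) C2_7 = true := by decide +kernel
def ti2_0 : tileCk (nat_lit 33) (nat_lit 31) (nat_lit 2) (nat_lit 15) (nat_lit 104) (nat_lit 11) (nat_lit 8) ZL2_0 CL2 = true := by decide +kernel
def zl2_0 : zlOK (nat_lit 104) ZL2_0 = true := by decide +kernel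
def ti2_1 : tileCk (nat_lit 33) (nat_lit 31) (nat_lit 2) (nat_lit 15) (nat_lit 9) (nat_lit 11) (nat_lit 8) ZL2_1 CL2 = true := by decide +kernel
def zl2_1 : zlOK (nat_lit 9) ZL2_1 = true := by decide +kernel
def tc2_0 : tiCov (nat_lit 1) (nat_lit 0) ZZ2 C2_0 = true := by decide +kernel
def tc2_1 : tiCov (nat_lit 1) (nat_lit 1) ZZ2 C2_1 = true := by decide +kernel
def tc2_2 : tiCov (nat_lit 1) (nat_lit 2) ZZ2 C2_2 = true := by decide +kernel
def tc2_3 : tiCov (nat_lit 1) (nat_lit 3) ZZ2 C2_3 = true := by decide +kernel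
def tc2_4 : tiCov (nat_lit 1) (nat_lit 4) ZZ2 C2_4 = true := by decide +kernel
def tc2_5 : tiCov (nat_lit 1) (nat_lit 5) ZZ2 C2_5 = true := by decide +kernel
def tc2_6 : tiCov (nat_lit 1) (nat_lit 6) ZZ2 C2_6 = true := by decide +kernel
def tc2_7 : tiCov (nat_lit 1) (nat_lit 7) ZZ2 C2_7 = true := by decide +kernel
def wf3_0 : wfC (nat_lit 13) (nat_lit 9) C3_0 = true := by decide +kernel
def rf3_0 : rfCk (nat_lit 33) (nat_lit 31) (nat_lit 13) (nat_lit 9) (nat_lit 4) (nat_lit 524288) (nat_lit 0) TL3 CL2 CL3 = true := by decide +kernel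
def st3_0_0 : starCk (nat_lit 13) (nat_lit 9) (nat_lit 1) (nat_lit 4) (nat_lit 16) (nat_lit 0) (nat_lit 256) C3_0 = true := by decide +kernel
def sc3_0 : stCov (nat_lit 2) (nat_lit 0) (Rl.cons (nat_lit 0) (nat_lit 16) Rl.nil) C3_0 = true := by decide +kernel
def wf3_1 : wfC (nat_lit 13) (nat_lit 9) C3_1 = true := by decide +kernel
def rf3_1 : rfCk (nat_lit 33) (nat_lit 31) (nat_lit 13) (nat_lit 9) (nat_lit 4) (nat_lit 524288) (nat_lit 1) TL3 CL2 CL3 = true := by decide +kernel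
def st3_1_0 : starCk (nat_lit 13) (nat_lit 9) (nat_lit 1) (nat_lit 4) (nat_lit 1) (nat_lit 5) (nat_lit 16) C3_1 = true := by decide +kernel
def sc3_1 : stCov (nat_lit 1) (nat_lit 5) (Rl.cons (nat_lit 5) (nat_lit 1) Rl.nil) C3_1 = true := by decide +kernel
def wf3_2 : wfC (nat_lit 13) (nat_lit 9) C3_2 = true := by decide +kernel
def rf3_2 : rfCk (nat_lit 33) (nat_lit 31) (nat_lit 13) (nat_lit 9) (nat_lit 4) (nat_lit 524288) (nat_lit 2) TL3 CL2 CL3 = true := by decide +kernel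
def st3_2_0 : starCk (nat_lit 13) (nat_lit 9) (nat_lit 1) (nat_lit 4) (nat_lit 4) (nat_lit 28) (nat_lit 16) C3_2 = true := by decide +kernel
def sc3_2 : stCov (nat_lit 1) (nat_lit 28) (Rl.cons (nat_lit 28) (nat_lit 4) Rl.nil) C3_2 = true := by decide +kernel
def wf3_3 : wfC (nat_lit 13) (nat_lit 9) C3_3 = true := by decide +kernel
def rf3_3 : rfCk (nat_lit 33) (nat_lit 31) (nat_lit 13) (nat_lit 9) (nat_lit 4) (nat_lit 524288) (nat_lit 3) TL3 CL2 CL3 = true := by decide +kernel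
def st3_3_0 : starCk (nat_lit 13) (nat_lit 9) (nat_lit 1) (nat_lit 4) (nat_lit 1) (nat_lit 9) (nat_lit 16) C3_3 = true := by decide +kernel
def sc3_3 : stCov (nat_lit 1) (nat_lit 9) (Rl.cons (nat_lit 9) (nat_lit 1) Rl.nil) C3_3 = true := by decide +kernel
def wf3_4 : wfC (nat_lit 13) (nat_lit 9) C3_4 = true := by decide +kernel
def rf3_4 : rfCk (nat_lit 33) (nat_lit 31) (nat_lit 13) (nat_lit 9) (nat_lit 4) (nat_lit 524288) (nat_lit 4) TL3 CL2 CL3 = true := by decide +kernel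
def st3_4_0 : starCk (nat_lit 13) (nat_lit 9) (nat_lit 1) (nat_lit 4) (nat_lit 1) (nat_lit 5) (nat_lit 16) C3_4 = true := by decide +kernel
def sc3_4 : stCov (nat_lit 1) (nat_lit 5) (Rl.cons (nat_lit 5) (nat_lit 1) Rl.nil) C3_4 = true := by decide +kernel
def wf3_6 : wfC (nat_lit 13) (nat_lit 9) C3_6 = true := by decide +kernel
def rf3_6 : rfCk (nat_lit 33) (nat_lit 31) (nat_lit 13) (nat_lit 9) (nat_lit 4) (nat_lit 524288) (nat_lit 6) TL3 CL2 CL3 = true := by decide +kernel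
def st3_6_0 : starCk (nat_lit 13) (nat_lit 9) (nat_lit 1) (nat_lit 4) (nat_lit 6) (nat_lit 20) (nat_lit 16) C3_6 = true := by decide +kernel
def sc3_6 : stCov (nat_lit 1) (nat_lit 20) (Rl.cons (nat_lit 20) (nat_lit 6) Rl.nil) C3_6 = true := by decide +kernel
def wf3_7 : wfC (nat_lit 13) (nat_lit 9) C3_7 = true := by decide +kernel
def rf3_7 : rfCk (nat_lit 33) (nat_lit 31) (nat_lit 13) (nat_lit 9) (nat_lit 4) (nat_lit 524288) (nat_lit 7) TL3 CL2 CL3 = true := by decide +kernel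
def st3_7_0 : starCk (nat_lit 13) (nat_lit 9) (nat_lit 1) (nat_lit 4) (nat_lit 8) (nat_lit 14) (nat_lit 1) C3_7 = true := by decide +kernel
def sc3_7 : stCov (nat_lit 0) (nat_lit 14) (Rl.cons (nat_lit 14) (nat_lit 8) Rl.nil) C3_7 = true := by decide +kernel
def ti3_0 : tileCk (nat_lit 13) (nat_lit 9) (nat_lit 2) (nat_lit 4) (nat_lit 9) (nat_lit 11) (nat_lit 8) ZL3_0 CL3 = true := by decide +kernel
def zl3_0 : zlOK (nat_lit 9) ZL3_0 = true := by decide +kernel
def ti3_1 : tileCk (nat_lit 13) (nat_lit 9) (nat_lit 2) (nat_lit 4) (nat_lit 12) (nat_lit 11) (nat_lit 8) ZL3_1 CL3 = true := by decide +kernel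
def zl3_1 : zlOK (nat_lit 12) ZL3_1 = true := by decide +kernel
def tc3_0 : tiCov (nat_lit 1) (nat_lit 0) ZZ3 C3_0 = true := by decide +kernel
def tc3_1 : tiCov (nat_lit 1) (nat_lit 1) ZZ3 C3_1 = true := by decide +kernel
def tc3_2 : tiCov (nat_lit 1) (nat_lit 2) ZZ3 C3_2 = true := by decide +kernel
def tc3_3 : tiCov (nat_lit 1) (nat_lit 3) ZZ3 C3_3 = true := by decide +kernel
def tc3_4 : tiCov (nat_lit 1) (nat_lit 4) ZZ3 C3_4 = true := by decide +kernel
def tc3_6 : tiCov (nat_lit 1) (nat_lit 6) ZZ3 C3_6 = true := by decide +kernel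
def tc3_7 : tiCov (nat_lit 1) (nat_lit 7) ZZ3 C3_7 = true := by decide +kernel
def de3_0 : deadCk (nat_lit 13) (nat_lit 9) C3_0 = true := by decide +kernel
def de3_1 : deadCk (nat_lit 13) (nat_lit 9) C3_1 = true := by decide +kernel
def de3_2 : deadCk (nat_lit 13) (nat_lit 9) C3_2 = true := by decide +kernel
def de3_3 : deadCk (nat_lit 13) (nat_lit 9) C3_3 = true := by decide +kernel
def de3_4 : deadCk (nat_lit 13) (nat_lit 9) C3_4 = true := by decide +kernel
def de3_6 : deadCk (nat_lit 13) (nat_lit 9) C3_6 = true := by decide +kernel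
def de3_7 : deadCk (nat_lit 13) (nat_lit 9) C3_7 = true := by decide +kernel
def wf3_5 : wfC (nat_lit 13) (nat_lit 9) C3_5 = true := by decide +kernel
def rf3_5 : rfCk (nat_lit 33) (nat_lit 31) (nat_lit 13) (nat_lit 9) (nat_lit 4) (nat_lit 524288) (nat_lit 5) TL3 CL2 CL3 = true := by decide +kernel
def sc3_5 : stCov (nat_lit 2) (nat_lit 0) Rl.nil C3_5 = true := by decide +kernel
def tc3_5 : tiCov (nat_lit 1) (nat_lit 5) ZZ3 C3_5 = true := by decide +kernel
def de3_5 : deadCk (nat_lit 13) (nat_lit 9) C3_5 = true := by decide +kernel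

end Pool.Agent.NNr.U11_1_1_m1
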